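import Pool.Agent.K1H80.KA.Stm

/-! From a list of the vertices to a permutation (project KA, piece TREE2). -/

set_option autoImplicit false

namespace Pool.Agent.K1H68.KA

open Pool.Agent.KA

theorem tree2 : TREE2Stm := by
  intro n ι _ a b hab l hnd hmem hl
  classical
  have hlen : l.length = n := by
    have h1 := List.toFinset_card_of_nodup hnd
    have h2 : l.toFinset = Finset.univ := by
      ext x
      simp [hmem x]
    rw [h2, Finset.card_univ, Fintype.card_fin] at h1
    exact h1.symm
  let f : Fin n → Fin n := fun x => ⟨l.idxOf x, by
    have := List.idxOf_lt_length_iff.2 (hmem x)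
    omega⟩
  have hf : Function.Injective f := by
    intro x y h
    have h1 : l.idxOf x = l.idxOf y := congrArg Fin.val h
    exact (List.idxOf_inj (hmem x)).1 h1
  let σ : Equiv.Perm (Fin n) := Equiv.ofBijective f (Finite.injective_iff_bijective.1 hf)
  have hσ : ∀ x, (σ x : ℕ) = l.idxOf x := fun x => rfl
  refine ⟨σ, fun c hc1 hc2 => hl c ?_ ?_⟩
  · intro v
    have h1 : ∑ e, (if a e = v then c e else 0) + ∑ e, (if b e = v then c e else 0) =
        ∑ e, (if tl σ a b e = v then c e else 0) + ∑ e, (if hd σ a b e = v then c e else 0) := by
      rw [← Finset.sum_add_distrib, ← Finset.sum_add_distrib]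
      refine Finset.sum_congr rfl fun e _ => ?_
      unfold tl hd
      split_ifs with h
      all_goals first | rfl | (rw [add_comm])
    rw [h1, hc1, hc2, add_zero]
  · -- suffixes
    have key : ∀ s pre : List (Fin n), l = pre ++ s → Cond a b s c := by
      intro s
      induction s with
      | nil => intro pre _; trivial
      | cons x s ih =>
        intro pre hpre
        refine ⟨?_, ih (pre ++ [x]) (by rw [hpre]; simp)⟩
        set t : List (Fin n) := x :: s with ht
        have hmt : ∀ y, y ∈ t ↔ pre.length ≤ l.idxOf y := by
          intro y
          have hd : y ∈ pre → y ∉ t := by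
            intro h1 h2
            rw [hpre] at hnd
            exact (List.nodup_append.1 hnd).2.2 y h1 y h2 rfl
          have hy := hmem y
          rw [hpre, List.mem_append] at hy
          by_cases h : y ∈ pre
          · have h1 : l.idxOf y < pre.length := by
              rw [hpre, List.idxOf_append_of_mem h]
              exact List.idxOf_lt_length_iff.2 h
            exact ⟨fun h2 => absurd h2 (hd h), fun h2 => absurd h2 (by omega)⟩
          · have h1 : pre.length ≤ l.idxOf y := by
              rw [hpre, List.idxOf_append_of_notMem h]
              omega
            exact ⟨fun _ => h1, fun _ => hy.resolve_left h⟩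
        have hiff : ∀ e, (a e ∈ t.toFinset ∧ b e ∈ t.toFinset) ↔ tl σ a b e ∈ t.toFinset := by
          intro e
          rw [List.mem_toFinset, List.mem_toFinset, List.mem_toFinset, hmt, hmt, hmt]
          unfold tl
          split_ifs with h
          · have h' : l.idxOf (a e) < l.idxOf (b e) := by
              rw [← hσ, ← hσ]; exact h
            omega
          · have h' : l.idxOf (b e) ≤ l.idxOf (a e) := by
              rw [← hσ, ← hσ]; exact not_lt.1 h
            omega
        unfold inn
        calc ∑ e, (if a e ∈ t.toFinset ∧ b e ∈ t.toFinset then c e else 0) =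
            ∑ e, (if tl σ a b e ∈ t.toFinset then c e else 0) := by
              refine Finset.sum_congr rfl fun e _ => ?_
              simp only [hiff e]
          _ = ∑ e, ∑ v ∈ t.toFinset, (if tl σ a b e = v then c e else 0) := by
              refine Finset.sum_congr rfl fun e _ => ?_
              rw [Finset.sum_ite_eq]
          _ = ∑ v ∈ t.toFinset, ∑ e, (if tl σ a b e = v then c e else 0) := Finset.sum_comm
          _ = 0 := Finset.sum_eq_zero fun v _ => hc1 v
    exact key l [] rfl

end Pool.Agent.K1H68.KA

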